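import Pool.Agent.H983R2.ONJ.Defs
import Pool.Agent.H717R2.ON3.Geo1

/-! # Task GEOA: energies of Lipschitz functions, lattice sums -/

set_option autoImplicit false

noncomputable section

namespace Pool.Agent.H983R2.ONJ

open Pool.Agent.H5R2.ON Pool.Agent.H717R2.ON3

theorem edge_nearJ {L : ℕ} [NeZero L] {ι : Type} [Fintype ι] {G : Gr (Tor L) ι} {β ρ K : ℝ}
    (hG : Nice G β ρ K) (e : ι) (a : Tor L) (r : ℝ)
    (h : tnorm (G.s e - a) ≤ r ∨ tnorm (G.t e - a) ≤ r) (hρ : 0 ≤ ρ) :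
    tnorm (G.s e - a) ≤ r + ρ ∧ tnorm (G.t e - a) ≤ r + ρ := by
  have h0 := hG.range e
  have h0' : tnorm (G.s e - G.t e) ≤ ρ := by
    rw [tnorm_sub_comm]
    exact h0
  rcases h with h | h
  · refine ⟨by linarith, ?_⟩
    have h1 := tnorm_add_le (G.s e - a) (G.t e - G.s e)
    have h2 : G.s e - a + (G.t e - G.s e) = G.t e - a := by abel
    rw [h2] at h1
    linarith
  · refine ⟨?_, by linarith⟩
    have h1 := tnorm_add_le (G.t e - a) (G.s e - G.t e)
    have h2 : G.t e - a + (G.s e - G.t e) = G.s e - a := by abel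
    rw [h2] at h1
    linarith

namespace Aux493

/-- sums over the edges with source in a ball, by the second moment -/
theorem mom_sum {L : ℕ} [NeZero L] {ι : Type} [Fintype ι] {G : Gr (Tor L) ι} {β ρ K : ℝ}
    (hG : Nice G β ρ K) (f : ι → ℝ) (a : Tor L) (r M : ℝ) (hM : 0 ≤ M)
    (hf : ∀ e, f e ≤ if tnorm (G.s e - a) ≤ r then M * tnorm (G.t e - G.s e) ^ 2 else 0) :
    β * ∑ e, f e ≤ ((ball a r).card : ℝ) * (M * K) := by
  classical
  have hβ := hG.beta
  have h1 : ∑ e, f e ≤ ∑ x ∈ ball a r, ∑ e ∈ Finset.univ.filter (fun e => G.s e = x),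
      M * tnorm (G.t e - G.s e) ^ 2 := by
    calc ∑ e, f e ≤ ∑ e, (if tnorm (G.s e - a) ≤ r then M * tnorm (G.t e - G.s e) ^ 2 else 0) :=
          Finset.sum_le_sum fun e _ => hf e
      _ = ∑ x : Tor L, ∑ e ∈ Finset.univ.filter (fun e => G.s e = x),
            (if tnorm (G.s e - a) ≤ r then M * tnorm (G.t e - G.s e) ^ 2 else 0) :=
          (Finset.sum_fiberwise _ _ _).symm
      _ = ∑ x : Tor L, (if tnorm (x - a) ≤ r then
            ∑ e ∈ Finset.univ.filter (fun e => G.s e = x), M * tnorm (G.t e - G.s e) ^ 2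
              else 0) := by
          refine Finset.sum_congr rfl fun x _ => ?_
          split_ifs with hx
          · refine Finset.sum_congr rfl fun e he => ?_
            rw [(Finset.mem_filter.1 he).2, if_pos hx]
          · refine Finset.sum_eq_zero fun e he => ?_
            rw [(Finset.mem_filter.1 he).2, if_neg hx]
      _ = _ := by
          unfold ball
          rw [Finset.sum_filter]
  calc β * ∑ e, f e ≤ β * ∑ x ∈ ball a r, ∑ e ∈ Finset.univ.filter (fun e => G.s e = x),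
      M * tnorm (G.t e - G.s e) ^ 2 := mul_le_mul_of_nonneg_left h1 hβ
    _ = ∑ x ∈ ball a r, M * (β * ∑ e ∈ Finset.univ.filter (fun e => G.s e = x),
          tnorm (G.t e - G.s e) ^ 2) := by
        rw [Finset.mul_sum]
        refine Finset.sum_congr rfl fun x _ => ?_
        rw [← Finset.mul_sum]
        ring
    _ ≤ ∑ x ∈ ball a r, M * K := by
        refine Finset.sum_le_sum fun x _ => mul_le_mul_of_nonneg_left ?_ hM
        convert hG.moms x using 3
    _ = _ := by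
        rw [Finset.sum_const, nsmul_eq_mul]

theorem exp_bound (a : ℝ) (ha : 0 < a) (t x y : ℝ) (ht : 0 ≤ t) (hx : |x| ≤ t) (hy : |y| ≤ t) :
    (1 + t) ^ 2 * Real.exp (-a * t) ≤ (1 / min 1 (a / 4)) ^ 2 *
      (Real.exp (-(a / 4) * |x|) * Real.exp (-(a / 4) * |y|)) := by
  set m := min 1 (a / 4) with hm
  have hm0 : 0 < m := lt_min one_pos (by positivity)
  have h1 : m * (1 + t) ≤ Real.exp (a / 4 * t) := by
    have h2 := Real.add_one_le_exp (a / 4 * t)
    have h3 : m ≤ 1 := min_le_left _ _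
    have h4 : m * t ≤ a / 4 * t := mul_le_mul_of_nonneg_right (min_le_right _ _) ht
    linarith
  have h5 : (1 + t) ≤ 1 / m * Real.exp (a / 4 * t) := by
    rw [one_div, ← div_eq_inv_mul, le_div_iff₀ hm0]
    linarith
  have h6 : (1 + t) ^ 2 ≤ (1 / m) ^ 2 * Real.exp (a / 2 * t) := by
    have h7 : Real.exp (a / 2 * t) = Real.exp (a / 4 * t) ^ 2 := by
      rw [← Real.exp_nat_mul]
      congr 1
      push_cast
      ring
    rw [h7, ← mul_pow]
    exact pow_le_pow_left₀ (by linarith) h5 2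
  have h8 : Real.exp (a / 2 * t) * Real.exp (-a * t) ≤
      Real.exp (-(a / 4) * |x|) * Real.exp (-(a / 4) * |y|) := by
    rw [← Real.exp_add, ← Real.exp_add]
    apply Real.exp_le_exp.2
    have h9 : a / 4 * |x| ≤ a / 4 * t := mul_le_mul_of_nonneg_left hx (by positivity)
    have h10 : a / 4 * |y| ≤ a / 4 * t := mul_le_mul_of_nonneg_left hy (by positivity)
    linarith
  calc (1 + t) ^ 2 * Real.exp (-a * t) ≤ ((1 / m) ^ 2 * Real.exp (a / 2 * t)) *
        Real.exp (-a * t) := mul_le_mul_of_nonneg_right h6 (Real.exp_pos _).le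
    _ = (1 / m) ^ 2 * (Real.exp (a / 2 * t) * Real.exp (-a * t)) := by ring
    _ ≤ _ := mul_le_mul_of_nonneg_left h8 (by positivity)

theorem summ_int (a : ℝ) (ha : 0 < a) : Summable fun n : ℤ => Real.exp (-a * |(n : ℝ)|) := by
  have h1 : Summable fun n : ℕ => Real.exp (-a * (n : ℝ)) := by
    have h2 := Real.summable_exp_nat_mul_iff.2 (neg_lt_zero.2 ha)
    refine h2.congr fun n => ?_
    rw [mul_comm]
  apply Summable.of_nat_of_neg
  · refine h1.congr fun n => ?_
    simp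
  · refine h1.congr fun n => ?_
    simp

end Aux493

open Aux493

/-- energy of a Lipschitz function supported in a ball -/
theorem energyJ : ∃ K₁ : ℝ, 0 < K₁ ∧ ∀ (L : ℕ) [NeZero L] {ι : Type} [Fintype ι]
    (G : Gr (Tor L) ι) (β ρ K : ℝ), Nice G β ρ K → 0 ≤ ρ → 0 ≤ K →
    ∀ (b : Tor L → ℝ) (a : Tor L) (r lam : ℝ), 0 ≤ r → 0 ≤ lam →
    (∀ x y, |b x - b y| ≤ lam * tnorm (x - y)) →
    (∀ x, b x ≠ 0 → tnorm (x - a) ≤ r) → β * En G b ≤ K₁ * K * (1 + r + ρ) ^ 2 * lam ^ 2 := by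
  obtain ⟨K0, hK0, hc⟩ := card_ball_le
  refine ⟨K0, hK0, ?_⟩
  intro L _ ι _ G β ρ K hG hρ hK b a r lam hr hlam hb hs
  have h1 := mom_sum hG (fun e => grad G b e ^ 2) a (r + ρ) (lam ^ 2) (by positivity) ?_
  · refine h1.trans ?_
    have h2 := hc L a (r + ρ) (by positivity)
    calc ((ball a (r + ρ)).card : ℝ) * (lam ^ 2 * K) ≤ (K0 * (1 + (r + ρ)) ^ 2) * (lam ^ 2 * K) :=
          mul_le_mul_of_nonneg_right h2 (by positivity)
      _ = _ := by ring
  · intro e
    have hgr : grad G b e ^ 2 ≤ lam ^ 2 * tnorm (G.t e - G.s e) ^ 2 := by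
      rw [← mul_pow, ← sq_abs]
      exact pow_le_pow_left₀ (abs_nonneg _) (hb _ _) 2
    split_ifs with h2
    · exact hgr
    · have h3 : b (G.s e) = 0 := by
        by_contra hc3
        exact h2 (edge_nearJ hG e a r (Or.inl (hs _ hc3)) hρ).1
      have h4 : b (G.t e) = 0 := by
        by_contra hc4
        exact h2 (edge_nearJ hG e a r (Or.inr (hs _ hc4)) hρ).1
      show grad G b e ^ 2 ≤ 0
      unfold grad
      rw [h3, h4]
      simp

theorem lsum (a : ℝ) (ha : 0 < a) : ∃ K : ℝ, 0 < K ∧ ∀ (L : ℕ) [NeZero L],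
    ∑ z : Tor L, (1 + tnorm z) ^ 2 * Real.exp (-a * tnorm z) ≤ K := by
  set T : ℝ := ∑' n : ℤ, Real.exp (-(a / 4) * |(n : ℝ)|) with hT
  have hsum := summ_int (a / 4) (by positivity)
  have hT0 : 0 < T := hsum.tsum_pos (fun n => (Real.exp_pos _).le) 0 (Real.exp_pos _)
  have hm0 : 0 < min 1 (a / 4) := lt_min one_pos (by positivity)
  refine ⟨(1 / min 1 (a / 4)) ^ 2 * (T * T), by positivity, ?_⟩
  intro L _
  have hz : ∑ u : ZMod L, Real.exp (-(a / 4) * |(u.valMinAbs : ℝ)|) ≤ T := by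
    have h1 : ∑ u : ZMod L, Real.exp (-(a / 4) * |(u.valMinAbs : ℝ)|) =
        ∑ n ∈ Finset.univ.map ⟨ZMod.valMinAbs (n := L), ZMod.injective_valMinAbs⟩,
          Real.exp (-(a / 4) * |(n : ℝ)|) := by
      rw [Finset.sum_map]
      rfl
    rw [h1]
    exact hsum.sum_le_tsum _ (fun n _ => (Real.exp_pos _).le)
  have hz0 : 0 ≤ ∑ u : ZMod L, Real.exp (-(a / 4) * |(u.valMinAbs : ℝ)|) :=
    Finset.sum_nonneg fun _ _ => (Real.exp_pos _).le
  calc ∑ z : Tor L, (1 + tnorm z) ^ 2 * Real.exp (-a * tnorm z)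
      ≤ ∑ z : Tor L, (1 / min 1 (a / 4)) ^ 2 * (Real.exp (-(a / 4) * |(z.1.valMinAbs : ℝ)|) *
          Real.exp (-(a / 4) * |(z.2.valMinAbs : ℝ)|)) := by
        refine Finset.sum_le_sum fun z _ => ?_
        apply exp_bound a ha _ _ _ (tnorm_nonneg z)
        · unfold tnorm
          apply Real.abs_le_sqrt
          nlinarith [sq_nonneg ((z.2.valMinAbs : ℤ) : ℝ)]
        · unfold tnorm
          apply Real.abs_le_sqrt
          nlinarith [sq_nonneg ((z.1.valMinAbs : ℤ) : ℝ)]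
    _ = (1 / min 1 (a / 4)) ^ 2 * ((∑ u : ZMod L, Real.exp (-(a / 4) * |(u.valMinAbs : ℝ)|)) *
          ∑ u : ZMod L, Real.exp (-(a / 4) * |(u.valMinAbs : ℝ)|)) := by
        rw [← Finset.mul_sum, Fintype.sum_prod_type, Finset.sum_mul_sum]
    _ ≤ _ := by
        apply mul_le_mul_of_nonneg_left _ (by positivity)
        exact mul_le_mul hz hz hz0 hT0.le

end Pool.Agent.H983R2.ONJ
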