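import Pool.Agent.H493R2.ONJ.GeoA
import Pool.Agent.H717R2.ON3.Geo3

/-! # Task GEOB: energies of the cut-off functions, port of Geo2 (helper142) -/

set_option autoImplicit false
set_option linter.unusedSectionVars false

noncomputable section

namespace Pool.Agent.H983R2.ONJ

open Pool.Agent.H5R2.ON Pool.Agent.H717R2.ON3

namespace Aux493B

variable {L : ℕ} [NeZero L]

/-- `max 0 (min 1 ·)` is 1-Lipschitz -/
theorem clamp_lip (u v : ℝ) : |max 0 (min 1 u) - max 0 (min 1 v)| ≤ |u - v| := by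
  have h1 := abs_max_sub_max_le_abs (min 1 u) (min 1 v) 0
  rw [max_comm (min 1 u), max_comm (min 1 v)] at h1
  have h2 := abs_min_sub_min_le_max 1 u 1 v
  rw [sub_self, abs_zero, max_eq_right (abs_nonneg _)] at h2
  exact h1.trans h2

theorem pos_lip (u v : ℝ) : |max 0 u - max 0 v| ≤ |u - v| := by
  have h1 := abs_max_sub_max_le_abs u v 0
  rw [max_comm u, max_comm v] at h1
  exact h1

theorem dist_lip (a x y : Tor L) : |tnorm (x - a) - tnorm (y - a)| ≤ tnorm (x - y) := by
  have h := abs_tnorm_sub_le (x - a) (y - a)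
  rw [sub_sub_sub_cancel_right] at h
  exact h

theorem fR_lip (R : ℝ) (hR : 0 < R) (p x y : Tor L) :
    |fR R p x - fR R p y| ≤ 4 / R * tnorm (x - y) := by
  unfold fR
  refine (clamp_lip _ _).trans ?_
  have : 2 - 4 * tnorm (x - p) / R - (2 - 4 * tnorm (y - p) / R) =
      -(4 / R * (tnorm (x - p) - tnorm (y - p))) := by ring
  rw [this, abs_neg, abs_mul, abs_of_pos (by positivity)]
  exact mul_le_mul_of_nonneg_left (dist_lip p x y) (by positivity)

theorem fR_supp (R : ℝ) (hR : 0 < R) (p x : Tor L) (h : fR R p x ≠ 0) :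
    tnorm (x - p) ≤ R / 2 := by
  by_contra hc
  apply h
  unfold fR
  rw [max_eq_left]
  refine (min_le_right _ _).trans ?_
  have : 2 ≤ 4 * tnorm (x - p) / R := by
    rw [le_div_iff₀ hR]
    linarith [not_le.1 hc]
  linarith

theorem tau_nonneg (l : ℝ) (a x : Tor L) : 0 ≤ tau l a x := le_max_left _ _

theorem tau_le_one (l : ℝ) (hl : 0 < l) (a x : Tor L) : tau l a x ≤ 1 := by
  unfold tau
  refine max_le zero_le_one ?_
  have := tnorm_nonneg (x - a)
  have : 0 ≤ tnorm (x - a) / l := by positivity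
  linarith

theorem tau_lip (l : ℝ) (hl : 0 < l) (a x y : Tor L) :
    |tau l a x - tau l a y| ≤ 1 / l * tnorm (x - y) := by
  unfold tau
  refine (pos_lip _ _).trans ?_
  have h1 : 1 - tnorm (x - a) / l - (1 - tnorm (y - a) / l) =
      -(1 / l * (tnorm (x - a) - tnorm (y - a))) := by ring
  rw [h1, abs_neg, abs_mul, abs_of_pos (by positivity : 0 < 1 / l)]
  exact mul_le_mul_of_nonneg_left (dist_lip a x y) (by positivity)

theorem tau_supp (l : ℝ) (hl : 0 < l) (a x : Tor L) (h : tau l a x ≠ 0) :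
    tnorm (x - a) ≤ l := by
  by_contra hc
  apply h
  unfold tau
  rw [max_eq_left]
  have : 1 ≤ tnorm (x - a) / l := by
    rw [le_div_iff₀ hl]
    linarith [not_le.1 hc]
  linarith

/-- plateau functions -/
def plat (m l : ℝ) (a x : Tor L) : ℝ := max 0 (min 1 (m - tnorm (x - a) / l))

theorem plat_nonneg (m l : ℝ) (a x : Tor L) : 0 ≤ plat m l a x := le_max_left _ _

theorem plat_le_one (m l : ℝ) (a x : Tor L) : plat m l a x ≤ 1 :=
  max_le zero_le_one (min_le_left _ _)

theorem plat_lip (m l : ℝ) (hl : 0 < l) (a x y : Tor L) :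
    |plat m l a x - plat m l a y| ≤ 1 / l * tnorm (x - y) := by
  unfold plat
  refine (clamp_lip _ _).trans ?_
  have h1 : m - tnorm (x - a) / l - (m - tnorm (y - a) / l) =
      -(1 / l * (tnorm (x - a) - tnorm (y - a))) := by ring
  rw [h1, abs_neg, abs_mul, abs_of_pos (by positivity : 0 < 1 / l)]
  exact mul_le_mul_of_nonneg_left (dist_lip a x y) (by positivity)

theorem plat_supp (m l : ℝ) (hl : 0 < l) (a x : Tor L) (h : plat m l a x ≠ 0) :
    tnorm (x - a) ≤ m * l := by
  by_contra hc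
  apply h
  unfold plat
  rw [max_eq_left]
  refine (min_le_right _ _).trans ?_
  have : m ≤ tnorm (x - a) / l := by
    rw [le_div_iff₀ hl]
    linarith [not_le.1 hc]
  linarith

/-- Lipschitz constant of a product -/
theorem prod_lip (a : Tor L) (b h : Tor L → ℝ) (B B1 r lam : ℝ) (hB : ∀ x, |b x| ≤ B)
    (hr : 0 ≤ r) (hlam : 0 ≤ lam) (hB1' : 0 ≤ B1)
    (hB1 : ∀ x y, |b x - b y| ≤ B1 * tnorm (x - y)) (hs : ∀ x, b x ≠ 0 → tnorm (x - a) ≤ r)
    (hh : ∀ x, |h x| ≤ lam * tnorm (x - a)) (hh1 : ∀ x y, |h x - h y| ≤ lam * tnorm (x - y))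
    (x y : Tor L) :
    |b x * h x - b y * h y| ≤ (B1 * (lam * r) + B * lam) * tnorm (x - y) := by
  have hB' := (abs_nonneg _).trans (hB a)
  have hxy := tnorm_nonneg (x - y)
  by_cases hx : b x = 0
  · by_cases hy : b y = 0
    · rw [hx, hy]
      simp only [zero_mul, sub_zero, abs_zero]
      positivity
    · have h3 : |h y| ≤ lam * r := (hh y).trans (mul_le_mul_of_nonneg_left (hs y hy) hlam)
      have h4 : b x * h x - b y * h y = (b x - b y) * h y + b x * (h x - h y) := by ring
      rw [h4]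
      refine (abs_add_le _ _).trans ?_
      rw [abs_mul, abs_mul]
      have h5 := mul_le_mul (hB1 x y) h3 (abs_nonneg _) (by positivity)
      have h6 := mul_le_mul (hB x) (hh1 x y) (abs_nonneg _) hB'
      linarith
  · have h3 : |h x| ≤ lam * r := (hh x).trans (mul_le_mul_of_nonneg_left (hs x hx) hlam)
    have h4 : b x * h x - b y * h y = (b x - b y) * h x + b y * (h x - h y) := by ring
    rw [h4]
    refine (abs_add_le _ _).trans ?_
    rw [abs_mul, abs_mul]
    have h5 := mul_le_mul (hB1 x y) h3 (abs_nonneg _) (by positivity)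
    have h6 := mul_le_mul (hB y) (hh1 x y) (abs_nonneg _) hB'
    linarith

end Aux493B

open Aux493 Aux493B

theorem geoJ : ∃ K₁ : ℝ, 0 < K₁ ∧ ∀ (L : ℕ) [NeZero L] {ι : Type} [Fintype ι]
    (G : Gr (Tor L) ι) (β ρ K : ℝ), Nice G β ρ K → 0 ≤ ρ → 0 ≤ K → ∀ (p a : Tor L) (R l : ℝ),
    1 ≤ l → ρ ≤ l → 100 * l ≤ R → 2 * R < L →
    (β ^ 2 * (En G (th l a) * En G (fun x => tt l a x * (fR R p x - fR R p a)) +
      En G (fun x => th l a x * (fR R p x - fR R p a)) * En G (tt l a)) ≤
        K₁ * K ^ 2 / (l ^ 2 * R ^ 2)) ∧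
    β * En G (fun x => ch l a x * (fR R p x - fR R p a)) ≤ K₁ * K * l ^ 2 / R ^ 2 ∧
    β * En G (fR R p) ≤ K₁ * K ∧
    β * ∑ e, ka R p l a (G.s e) (G.t e) ^ 2 ≤ K₁ * K / (l ^ 2 * R ^ 2) := by
  obtain ⟨K0, hK0, hE⟩ := energyJ
  obtain ⟨K1, hK1, hC⟩ := card_ball_le
  obtain ⟨c, hc, hcst⟩ := cst_ge
  refine ⟨72000 * K0 ^ 2 / c ^ 2 + 50176 * K0 + 256 * K1 / c ^ 2, by positivity, ?_⟩
  intro L _ ι _ G β ρ K hG hρ hK p a R l hl hρl hR hL
  have hβ := hG.beta
  have hl0 : 0 < l := by linarith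
  have hR0 : 0 < R := by linarith
  have hcl := hcst L l hl (by linarith)
  have hcpos : 0 < cst L l := lt_of_lt_of_le (by positivity) hcl
  -- the function h
  set h : Tor L → ℝ := fun x => fR R p x - fR R p a with hh
  have hh1 : ∀ x y, |h x - h y| ≤ 4 / R * tnorm (x - y) := by
    intro x y
    have : h x - h y = fR R p x - fR R p y := by
      simp only [hh]
      ring
    rw [this]
    exact fR_lip R hR0 p x y
  have hh0 : ∀ x, |h x| ≤ 4 / R * tnorm (x - a) := fun x => fR_lip R hR0 p x a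
  -- th
  have th0 : ∀ x, 0 ≤ th l a x := fun x => div_nonneg (tau_nonneg l a x) hcpos.le
  have th1 : ∀ x, th l a x ≤ 1 / cst L l := by
    intro x
    unfold th
    have := tau_le_one l hl0 a x
    gcongr
  have thg : ∀ x y, |th l a x - th l a y| ≤ 1 / (l * cst L l) * tnorm (x - y) := by
    intro x y
    have h1 : th l a x - th l a y = (tau l a x - tau l a y) / cst L l := by
      unfold th
      ring
    rw [h1, abs_div, abs_of_pos hcpos, ← div_div, div_mul_eq_mul_div]
    have := tau_lip l hl0 a x y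
    gcongr
  have ths : ∀ x, th l a x ≠ 0 → tnorm (x - a) ≤ l := by
    intro x hx
    apply tau_supp l hl0
    intro h0
    apply hx
    unfold th
    rw [h0, zero_div]
  have thB : ∀ x, |th l a x| ≤ 1 / cst L l := by
    intro x
    rw [abs_of_nonneg (th0 x)]
    exact th1 x
  have tt_eq : ∀ x, tt l a x = plat 3 l a x := fun x => rfl
  have ch_eq : ∀ x, ch l a x = plat 6 l a x := fun x => rfl
  have ttB : ∀ x, |tt l a x| ≤ 1 := by
    intro x
    rw [tt_eq, abs_of_nonneg (plat_nonneg 3 l a x)]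
    exact plat_le_one 3 l a x
  have chB : ∀ x, |ch l a x| ≤ 1 := by
    intro x
    rw [ch_eq, abs_of_nonneg (plat_nonneg 6 l a x)]
    exact plat_le_one 6 l a x
  have ttg : ∀ x y, |tt l a x - tt l a y| ≤ 1 / l * tnorm (x - y) :=
    fun x y => plat_lip 3 l hl0 a x y
  have chg : ∀ x y, |ch l a x - ch l a y| ≤ 1 / l * tnorm (x - y) :=
    fun x y => plat_lip 6 l hl0 a x y
  have tts : ∀ x, tt l a x ≠ 0 → tnorm (x - a) ≤ 3 * l := fun x hx => plat_supp 3 l hl0 a x hx
  have chs : ∀ x, ch l a x ≠ 0 → tnorm (x - a) ≤ 6 * l := fun x hx => plat_supp 6 l hl0 a x hx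
  have En_nn : ∀ b : Tor L → ℝ, 0 ≤ β * En G b := fun b =>
    mul_nonneg hβ (Finset.sum_nonneg fun _ _ => sq_nonneg _)
  -- energies
  have E1 : β * En G (th l a) ≤ 9 * K0 * K / (c ^ 2 * l ^ 4) := by
    refine (hE L G β ρ K hG hρ hK (th l a) a l _ hl0.le (by positivity) thg ths).trans ?_
    calc K0 * K * (1 + l + ρ) ^ 2 * (1 / (l * cst L l)) ^ 2
        ≤ K0 * K * (3 * l) ^ 2 * (1 / (l * (c * l ^ 2))) ^ 2 := by
          have : 1 + l + ρ ≤ 3 * l := by linarith
          gcongr
      _ = 9 * K0 * K / (c ^ 2 * l ^ 4) := by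
          field_simp
          ring
  have E2 : β * En G (tt l a) ≤ 25 * K0 * K := by
    refine (hE L G β ρ K hG hρ hK (tt l a) a (3 * l) _ (by positivity) (by positivity)
      ttg tts).trans ?_
    calc K0 * K * (1 + 3 * l + ρ) ^ 2 * (1 / l) ^ 2 ≤ K0 * K * (5 * l) ^ 2 * (1 / l) ^ 2 := by
          have : 1 + 3 * l + ρ ≤ 5 * l := by linarith
          gcongr
      _ = 25 * K0 * K := by
          field_simp
          ring
  have E3 : β * En G (fun x => tt l a x * h x) ≤ 6400 * K0 * K * l ^ 2 / R ^ 2 := by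
    have hg := prod_lip a (tt l a) h 1 (1 / l) (3 * l) (4 / R) ttB (by positivity)
      (by positivity) (by positivity) ttg tts hh0 hh1
    refine (hE L G β ρ K hG hρ hK _ a (3 * l) _ (by positivity) (by positivity) hg ?_).trans ?_
    · intro x hx
      exact tts x (left_ne_zero_of_mul hx)
    calc K0 * K * (1 + 3 * l + ρ) ^ 2 * (1 / l * (4 / R * (3 * l)) + 1 * (4 / R)) ^ 2
        ≤ K0 * K * (5 * l) ^ 2 * (1 / l * (4 / R * (3 * l)) + 1 * (4 / R)) ^ 2 := by
          have : 1 + 3 * l + ρ ≤ 5 * l := by linarith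
          gcongr
      _ = 6400 * K0 * K * l ^ 2 / R ^ 2 := by
          field_simp
          ring
  have E4 : β * En G (fun x => th l a x * h x) ≤ 576 * K0 * K / (c ^ 2 * l ^ 2 * R ^ 2) := by
    have hg := prod_lip a (th l a) h _ (1 / (l * cst L l)) l (4 / R) thB (by positivity)
      (by positivity) (by positivity) thg ths hh0 hh1
    refine (hE L G β ρ K hG hρ hK _ a l _ (by positivity) (by positivity) hg ?_).trans ?_
    · intro x hx
      exact ths x (left_ne_zero_of_mul hx)
    calc K0 * K * (1 + l + ρ) ^ 2 * (1 / (l * cst L l) * (4 / R * l) + 1 / cst L l * (4 / R)) ^ 2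
        ≤ K0 * K * (3 * l) ^ 2 * (1 / (l * (c * l ^ 2)) * (4 / R * l) +
            1 / (c * l ^ 2) * (4 / R)) ^ 2 := by
          have : 1 + l + ρ ≤ 3 * l := by linarith
          gcongr
      _ = 576 * K0 * K / (c ^ 2 * l ^ 2 * R ^ 2) := by
          field_simp
          ring
  have E5 : β * En G (fun x => ch l a x * h x) ≤ 50176 * K0 * K * l ^ 2 / R ^ 2 := by
    have hg := prod_lip a (ch l a) h 1 (1 / l) (6 * l) (4 / R) chB (by positivity)
      (by positivity) (by positivity) chg chs hh0 hh1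
    refine (hE L G β ρ K hG hρ hK _ a (6 * l) _ (by positivity) (by positivity) hg ?_).trans ?_
    · intro x hx
      exact chs x (left_ne_zero_of_mul hx)
    calc K0 * K * (1 + 6 * l + ρ) ^ 2 * (1 / l * (4 / R * (6 * l)) + 1 * (4 / R)) ^ 2
        ≤ K0 * K * (8 * l) ^ 2 * (1 / l * (4 / R * (6 * l)) + 1 * (4 / R)) ^ 2 := by
          have : 1 + 6 * l + ρ ≤ 8 * l := by linarith
          gcongr
      _ = 50176 * K0 * K * l ^ 2 / R ^ 2 := by
          field_simp
          ring
  have E6 : β * En G (fR R p) ≤ 16 * K0 * K := by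
    refine (hE L G β ρ K hG hρ hK (fR R p) p (R / 2) (4 / R) (by positivity) (by positivity)
      (fR_lip R hR0 p) (fun x hx => fR_supp R hR0 p x hx)).trans ?_
    calc K0 * K * (1 + R / 2 + ρ) ^ 2 * (4 / R) ^ 2 ≤ K0 * K * R ^ 2 * (4 / R) ^ 2 := by
          have : 1 + R / 2 + ρ ≤ R := by linarith
          gcongr
      _ = 16 * K0 * K := by
          field_simp
          ring
  have q1 : 0 < 72000 * K0 ^ 2 / c ^ 2 := by positivity
  have q2 : 0 < 50176 * K0 := by positivity
  have q3 : 0 < 256 * K1 / c ^ 2 := by positivity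
  refine ⟨?_, ?_, ?_, ?_⟩
  · calc β ^ 2 * (En G (th l a) * En G (fun x => tt l a x * h x) +
        En G (fun x => th l a x * h x) * En G (tt l a))
        = (β * En G (th l a)) * (β * En G (fun x => tt l a x * h x)) +
          (β * En G (fun x => th l a x * h x)) * (β * En G (tt l a)) := by ring
      _ ≤ 9 * K0 * K / (c ^ 2 * l ^ 4) * (6400 * K0 * K * l ^ 2 / R ^ 2) +
          576 * K0 * K / (c ^ 2 * l ^ 2 * R ^ 2) * (25 * K0 * K) :=
          add_le_add (mul_le_mul E1 E3 (En_nn _) (by positivity))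
            (mul_le_mul E4 E2 (En_nn _) (by positivity))
      _ = (72000 * K0 ^ 2 / c ^ 2) * K ^ 2 / (l ^ 2 * R ^ 2) := by
          field_simp
          ring
      _ ≤ (72000 * K0 ^ 2 / c ^ 2 + 50176 * K0 + 256 * K1 / c ^ 2) * K ^ 2 / (l ^ 2 * R ^ 2) := by
          have q : 72000 * K0 ^ 2 / c ^ 2 ≤
              72000 * K0 ^ 2 / c ^ 2 + 50176 * K0 + 256 * K1 / c ^ 2 := by linarith
          gcongr
  · refine E5.trans ?_
    have q : 50176 * K0 ≤ 72000 * K0 ^ 2 / c ^ 2 + 50176 * K0 + 256 * K1 / c ^ 2 := by linarith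
    gcongr
  · refine E6.trans ?_
    have q : 16 * K0 ≤ 72000 * K0 ^ 2 / c ^ 2 + 50176 * K0 + 256 * K1 / c ^ 2 := by linarith
    gcongr
  · have h1 := mom_sum hG (fun e => ka R p l a (G.s e) (G.t e) ^ 2) a (3 * l)
      ((4 / R * (1 / (c * l ^ 2))) ^ 2) (by positivity) ?_
    · refine h1.trans ?_
      have h2 := hC L a (3 * l) (by positivity)
      calc ((ball a (3 * l)).card : ℝ) * ((4 / R * (1 / (c * l ^ 2))) ^ 2 * K)
          ≤ (K1 * (4 * l) ^ 2) * ((4 / R * (1 / (c * l ^ 2))) ^ 2 * K) := by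
            have h3 : K1 * (1 + 3 * l) ^ 2 ≤ K1 * (4 * l) ^ 2 := by
              have : 1 + 3 * l ≤ 4 * l := by linarith
              gcongr
            have h4 : ((ball a (3 * l)).card : ℝ) ≤ K1 * (4 * l) ^ 2 := h2.trans h3
            gcongr
        _ = (256 * K1 / c ^ 2) * K / (l ^ 2 * R ^ 2) := by
            field_simp
            ring
        _ ≤ (72000 * K0 ^ 2 / c ^ 2 + 50176 * K0 + 256 * K1 / c ^ 2) * K / (l ^ 2 * R ^ 2) := by
            have q : 256 * K1 / c ^ 2 ≤
                72000 * K0 ^ 2 / c ^ 2 + 50176 * K0 + 256 * K1 / c ^ 2 := by linarith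
            gcongr
    · intro e
      have hk : ka R p l a (G.s e) (G.t e) = 1 / 2 * (h (G.t e) - h (G.s e)) *
          (th l a (G.s e) * tt l a (G.t e) + tt l a (G.s e) * th l a (G.t e)) := rfl
      split_ifs with hi
      · show ka R p l a (G.s e) (G.t e) ^ 2 ≤ _
        rw [← mul_pow, ← sq_abs, hk]
        refine pow_le_pow_left₀ (abs_nonneg _) ?_ 2
        rw [abs_mul, abs_mul]
        have h1 : |th l a (G.s e) * tt l a (G.t e) + tt l a (G.s e) * th l a (G.t e)| ≤
            2 * (1 / (c * l ^ 2)) := by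
          have h2 : 1 / cst L l ≤ 1 / (c * l ^ 2) := by gcongr
          refine (abs_add_le _ _).trans ?_
          rw [abs_mul, abs_mul]
          have h3 := mul_le_mul ((thB (G.s e)).trans h2) (ttB (G.t e)) (abs_nonneg _)
            (by positivity)
          have h4 := mul_le_mul (ttB (G.s e)) ((thB (G.t e)).trans h2) (abs_nonneg _)
            (by positivity)
          linarith
        have h5 := mul_le_mul (hh1 (G.t e) (G.s e)) h1 (abs_nonneg _)
          (mul_nonneg (by positivity) (tnorm_nonneg _))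
        rw [abs_of_pos (by norm_num : (0:ℝ) < 1 / 2)]
        linarith
      · have hs2 : th l a (G.s e) = 0 := by
          by_contra h1
          have := ths _ h1
          apply hi
          linarith
        have hs3 : tt l a (G.s e) = 0 := by
          by_contra h1
          exact hi (tts _ h1)
        show ka R p l a (G.s e) (G.t e) ^ 2 ≤ 0
        rw [hk, hs2, hs3]
        simp

end Pool.Agent.H983R2.ONJ
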